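import Pool.Agent.W661.RC.Stm2
import Pool.Agent.W683.RC.Bas

/-! Project RC, part PTD: smoothing systems on matrices. -/

set_option autoImplicit false

namespace Pool.Agent.W637.RC.PTD

open Matrix
open scoped ComplexOrder
open Pool.Agent.W661.RC Pool.Agent.W683.RC

noncomputable section

variable {d k : ℕ}

/-! ### the averaging operator -/

/-- `x ↦ a x a*` -/
def cj (a : Mt d) : Mt d →ₗ[ℂ] Mt d where
  toFun x := a * x * aᴴ
  map_add' x y := by rw [Matrix.mul_add, Matrix.add_mul]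
  map_smul' c x := by simp

lemma cj_apply (a x : Mt d) : cj a x = a * x * aᴴ := rfl

/-- the coefficient -/
def ck (k : ℕ) : ℝ := 1 / (2 * (2 * k + 1))

lemma ck_nonneg (k : ℕ) : 0 ≤ ck k := by unfold ck; positivity

lemma ck_eq (k : ℕ) : 1 / 2 + ck k * (1 + 2 * k) = 1 := by
  unfold ck
  have : (2 * (k : ℝ) + 1) ≠ 0 := by positivity
  field_simp
  ring

/-- the averaging operator -/
def P0 (u : Fin k → Mt d) : Mt d →ₗ[ℂ] Mt d :=
  ((1 / 2 : ℝ) : ℂ) • LinearMap.id + ((ck k : ℝ) : ℂ) •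
    (LinearMap.id + ∑ s, (cj (u s) + cj (u s)ᴴ))

lemma P0_apply (u : Fin k → Mt d) (x : Mt d) :
    P0 u x = ((1 / 2 : ℝ) : ℂ) • x + ((ck k : ℝ) : ℂ) •
      (x + ∑ s, (u s * x * (u s)ᴴ + (u s)ᴴ * x * u s)) := by
  unfold P0
  simp only [LinearMap.add_apply, LinearMap.smul_apply, LinearMap.id_apply, LinearMap.sum_apply,
    cj_apply, Matrix.conjTranspose_conjTranspose]

/-- triangle inequality -/
lemma tri {E : Type} [NormedAddCommGroup E] [NormedSpace ℂ E] (F : Mt d →ₗ[ℂ] E)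
    (u : Fin k → Mt d) (x : Mt d) (B : ℝ) (h1 : ‖F x‖ ≤ B)
    (h2 : ∀ s, ‖F (u s * x * (u s)ᴴ)‖ ≤ B) (h3 : ∀ s, ‖F ((u s)ᴴ * x * u s)‖ ≤ B) :
    ‖F (P0 u x)‖ ≤ B := by
  rw [P0_apply, map_add, map_smul, map_smul, map_add, map_sum]
  have h4 : ‖∑ s, F (u s * x * (u s)ᴴ + (u s)ᴴ * x * u s)‖ ≤ ∑ _s : Fin k, (2 * B) := by
    refine (norm_sum_le _ _).trans (Finset.sum_le_sum fun s _ => ?_)
    rw [map_add]
    refine (norm_add_le _ _).trans ?_
    linarith [h2 s, h3 s]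
  rw [Finset.sum_const, Finset.card_univ, Fintype.card_fin, nsmul_eq_mul] at h4
  have h5 : ‖F x + ∑ s, F (u s * x * (u s)ᴴ + (u s)ᴴ * x * u s)‖ ≤ B + k * (2 * B) :=
    (norm_add_le _ _).trans (add_le_add h1 h4)
  have hB : 0 ≤ B := (norm_nonneg _).trans h1
  calc ‖((1 / 2 : ℝ) : ℂ) • F x + ((ck k : ℝ) : ℂ) •
        (F x + ∑ s, F (u s * x * (u s)ᴴ + (u s)ᴴ * x * u s))‖
      ≤ ‖((1 / 2 : ℝ) : ℂ) • F x‖ + ‖((ck k : ℝ) : ℂ) •
        (F x + ∑ s, F (u s * x * (u s)ᴴ + (u s)ᴴ * x * u s))‖ := norm_add_le _ _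
    _ = 1 / 2 * ‖F x‖ + ck k * ‖F x + ∑ s, F (u s * x * (u s)ᴴ + (u s)ᴴ * x * u s)‖ := by
        rw [norm_smul, norm_smul, Complex.norm_real, Complex.norm_real,
          Real.norm_of_nonneg (ck_nonneg k), Real.norm_of_nonneg (by norm_num)]
    _ ≤ 1 / 2 * B + ck k * (B + k * (2 * B)) := by
        have := ck_nonneg k
        gcongr
    _ = (1 / 2 + ck k * (1 + 2 * k)) * B := by ring
    _ = B := by rw [ck_eq, one_mul]

/-- `vc` as a linear map -/
def vl : Mt d →ₗ[ℂ] EuclideanSpace ℂ (Fin d × Fin d) where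
  toFun := vc
  map_add' := vc_add
  map_smul' := vc_smul

lemma vl_apply (x : Mt d) : vl x = vc x := rfl

/-- `x ↦ vc (x v)` -/
def vr (v : Matrix (Fin d) Unit ℂ) : Mt d →ₗ[ℂ] EuclideanSpace ℂ (Fin d × Unit) where
  toFun x := vc (x * v)
  map_add' x y := by rw [Matrix.add_mul, vc_add]
  map_smul' c x := by rw [Matrix.smul_mul, vc_smul]; rfl

lemma vr_apply (v : Matrix (Fin d) Unit ℂ) (x : Mt d) : vr v x = vc (x * v) := rfl

lemma norm_vc_le {m n m' n' : Type} [Fintype m] [Fintype n] [Fintype m'] [Fintype n']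
    {x : Matrix m n ℂ} {y : Matrix m' n' ℂ} :
    ‖vc x‖ ≤ ‖vc y‖ ↔ hs x ≤ hs y := by
  rw [hs_eq_norm, hs_eq_norm]
  constructor
  · intro h
    have := norm_nonneg (vc x)
    nlinarith [norm_nonneg (vc y)]
  · intro h
    exact le_of_sq_le_sq h (norm_nonneg _)

lemma con_iff (x : Mt d) : Le (xᴴ * x) 1 ↔ ∀ v : Matrix (Fin d) Unit ℂ, hs (x * v) ≤ hs v := by
  constructor
  · intro h v
    exact hs_mul_le h v
  · intro h
    unfold Le
    refine Matrix.PosSemidef.of_dotProduct_mulVec_nonneg ?_ fun w => ?_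
    · rw [Matrix.IsHermitian, Matrix.conjTranspose_sub, Matrix.conjTranspose_one,
        Matrix.conjTranspose_mul, Matrix.conjTranspose_conjTranspose]
    · set v : Matrix (Fin d) Unit ℂ := Matrix.of fun i _ => w i with hv
      have h1 : star w ⬝ᵥ ((1 - xᴴ * x) *ᵥ w) = Matrix.trace (vᴴ * ((1 - xᴴ * x) * v)) := by
        simp [Matrix.trace, Matrix.mul_apply, dotProduct, Matrix.mulVec, hv]
      have h2 : vᴴ * ((1 - xᴴ * x) * v) = vᴴ * v - (x * v)ᴴ * (x * v) := by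
        rw [Matrix.conjTranspose_mul, Matrix.sub_mul, Matrix.one_mul, Matrix.mul_sub]
        simp only [Matrix.mul_assoc]
      rw [h1, h2, Matrix.trace_sub, trace_conjTranspose_mul_self, trace_conjTranspose_mul_self,
        ← Complex.ofReal_sub]
      exact ofReal_nonneg' (sub_nonneg.mpr (h v))

section props

variable {u : Fin k → Mt d} (hu : ∀ s, (u s)ᴴ * u s = 1)

include hu

lemma P0_one : P0 u 1 = 1 := by
  rw [P0_apply]
  have h1 : ∀ s, u s * 1 * (u s)ᴴ + (u s)ᴴ * 1 * u s = (2 : ℂ) • (1 : Mt d) := by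
    intro s
    rw [Matrix.mul_one, Matrix.mul_one, hu s, unit_symm (hu s), two_smul]
  simp only [h1]
  rw [Finset.sum_const, Finset.card_univ, Fintype.card_fin]
  have h2 : (1 : Mt d) + k • ((2 : ℂ) • (1 : Mt d)) = (((1 + 2 * k : ℝ)) : ℂ) • (1 : Mt d) := by
    rw [← Nat.cast_smul_eq_nsmul ℂ, smul_smul]
    push_cast
    rw [add_smul, one_smul, mul_comm]
  rw [h2, smul_smul, ← add_smul, ← Complex.ofReal_mul, ← Complex.ofReal_add, ck_eq,
    Complex.ofReal_one, one_smul]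

omit hu in
lemma P0_psd {x : Mt d} (hx : x.PosSemidef) : (P0 u x).PosSemidef := by
  rw [P0_apply]
  refine (psd_smul hx (by norm_num)).add (psd_smul (hx.add ?_) (ck_nonneg k))
  refine Matrix.posSemidef_sum _ fun s _ => ?_
  refine (hx.mul_mul_conjTranspose_same (u s)).add ?_
  exact hx.conjTranspose_mul_mul_same (u s)

omit hu in
lemma P0_star (x : Mt d) : P0 u xᴴ = (P0 u x)ᴴ := by
  rw [P0_apply, P0_apply]
  simp only [Matrix.conjTranspose_add, Matrix.conjTranspose_smul, Matrix.conjTranspose_sum,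
    Matrix.conjTranspose_mul, Matrix.conjTranspose_conjTranspose, Complex.star_def,
    Complex.conj_ofReal, Matrix.mul_assoc]

omit hu in
lemma P0_trc (x y : Mt d) : Matrix.trace (P0 u x * y) = Matrix.trace (x * P0 u y) := by
  rw [P0_apply, P0_apply]
  simp only [Matrix.add_mul, Matrix.mul_add, Matrix.smul_mul, Matrix.mul_smul, Matrix.trace_add,
    Matrix.trace_smul, Matrix.sum_mul, Matrix.mul_sum, Matrix.trace_sum]
  congr 3
  refine Finset.sum_congr rfl fun s _ => ?_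
  have h1 : Matrix.trace (u s * x * (u s)ᴴ * y) = Matrix.trace (x * ((u s)ᴴ * y * u s)) := by
    rw [Matrix.mul_assoc, Matrix.mul_assoc, Matrix.trace_mul_comm, Matrix.mul_assoc,
      Matrix.mul_assoc]
  have h2 : Matrix.trace ((u s)ᴴ * x * u s * y) = Matrix.trace (x * (u s * y * (u s)ᴴ)) := by
    rw [Matrix.mul_assoc, Matrix.mul_assoc, Matrix.trace_mul_comm, Matrix.mul_assoc,
      Matrix.mul_assoc]
  rw [h1, h2, add_comm]

lemma P0_hs (x : Mt d) : hs (P0 u x) ≤ hs x := by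
  rw [← norm_vc_le, ← vl_apply]
  refine tri vl u x _ le_rfl (fun s => ?_) fun s => ?_
  · rw [vl_apply, norm_vc_le, hs_mul_unit (unit_conj (hu s)), hs_unit_mul (hu s)]
  · rw [vl_apply, norm_vc_le, hs_mul_unit (hu s), hs_unit_mul (unit_conj (hu s))]

lemma P0_ctr {x : Mt d} (hx : Le (xᴴ * x) 1) : Le ((P0 u x)ᴴ * P0 u x) 1 := by
  rw [con_iff] at hx ⊢
  intro v
  rw [← norm_vc_le, ← vr_apply]
  refine tri (vr v) u x _ ?_ (fun s => ?_) fun s => ?_
  · rw [vr_apply, norm_vc_le]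
    exact hx v
  · rw [vr_apply, norm_vc_le]
    calc hs (u s * x * (u s)ᴴ * v) = hs (u s * (x * ((u s)ᴴ * v))) := by
          simp only [Matrix.mul_assoc]
      _ = hs (x * ((u s)ᴴ * v)) := hs_unit_mul (hu s) _
      _ ≤ hs ((u s)ᴴ * v) := hx _
      _ = hs v := hs_unit_mul (unit_conj (hu s)) _
  · rw [vr_apply, norm_vc_le]
    calc hs ((u s)ᴴ * x * u s * v) = hs ((u s)ᴴ * (x * (u s * v))) := by
          simp only [Matrix.mul_assoc]
      _ = hs (x * (u s * v)) := hs_unit_mul (unit_conj (hu s)) _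
      _ ≤ hs (u s * v) := hx _
      _ = hs v := hs_unit_mul (hu s) _

/-! ### powers -/

lemma pow_one' (K : ℕ) : (P0 u ^ K) 1 = 1 := by
  induction K with
  | zero => rfl
  | succ K ih => rw [pow_succ', Module.End.mul_apply, ih, P0_one hu]

omit hu in
lemma pow_psd (K : ℕ) {x : Mt d} (hx : x.PosSemidef) : ((P0 u ^ K) x).PosSemidef := by
  induction K with
  | zero => exact hx
  | succ K ih =>
    rw [pow_succ', Module.End.mul_apply]
    exact P0_psd ih

omit hu in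
lemma pow_star (K : ℕ) (x : Mt d) : (P0 u ^ K) xᴴ = ((P0 u ^ K) x)ᴴ := by
  induction K with
  | zero => rfl
  | succ K ih => rw [pow_succ', Module.End.mul_apply, Module.End.mul_apply, ih, P0_star]

omit hu in
lemma pow_trc (K : ℕ) (x y : Mt d) :
    Matrix.trace ((P0 u ^ K) x * y) = Matrix.trace (x * (P0 u ^ K) y) := by
  induction K generalizing x y with
  | zero => rfl
  | succ K ih =>
    have h1 : (P0 u ^ (K + 1)) x = P0 u ((P0 u ^ K) x) := by
      rw [pow_succ', Module.End.mul_apply]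
    have h2 : (P0 u ^ (K + 1)) y = (P0 u ^ K) (P0 u y) := by
      rw [pow_succ, Module.End.mul_apply]
    rw [h1, h2, P0_trc, ih]

lemma pow_hs (K : ℕ) (x : Mt d) : hs ((P0 u ^ K) x) ≤ hs x := by
  induction K with
  | zero => exact le_rfl
  | succ K ih =>
    rw [pow_succ', Module.End.mul_apply]
    exact (P0_hs hu _).trans ih

lemma pow_ctr (K : ℕ) {x : Mt d} (hx : Le (xᴴ * x) 1) :
    Le (((P0 u ^ K) x)ᴴ * (P0 u ^ K) x) 1 := by
  induction K with
  | zero => exact hx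
  | succ K ih =>
    rw [pow_succ', Module.End.mul_apply]
    exact P0_ctr hu ih

end props

/-! ### the representation -/

section rep

lemma uni (V : Matrix.unitaryGroup (Fin d) ℂ) : (V : Mt d)ᴴ * (V : Mt d) = 1 := by
  have := Matrix.mem_unitaryGroup_iff'.mp V.2
  rwa [Matrix.star_eq_conjTranspose] at this

/-- conjugation by a unitary matrix -/
def cje (V : Matrix.unitaryGroup (Fin d) ℂ) : Mt d ≃ₗ[ℂ] Mt d where
  toFun x := (V : Mt d) * x * (V : Mt d)ᴴ
  map_add' x y := by rw [Matrix.mul_add, Matrix.add_mul]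
  map_smul' c x := by simp
  invFun x := (V : Mt d)ᴴ * x * (V : Mt d)
  left_inv x := by
    have h1 := uni V
    calc (V : Mt d)ᴴ * ((V : Mt d) * x * (V : Mt d)ᴴ) * (V : Mt d)
        = ((V : Mt d)ᴴ * (V : Mt d)) * x * ((V : Mt d)ᴴ * (V : Mt d)) := by
          simp only [Matrix.mul_assoc]
      _ = x := by rw [h1, Matrix.one_mul, Matrix.mul_one]
  right_inv x := by
    have h1 := unit_symm (uni V)
    calc (V : Mt d) * ((V : Mt d)ᴴ * x * (V : Mt d)) * (V : Mt d)ᴴ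
        = ((V : Mt d) * (V : Mt d)ᴴ) * x * ((V : Mt d) * (V : Mt d)ᴴ) := by
          simp only [Matrix.mul_assoc]
      _ = x := by rw [h1, Matrix.one_mul, Matrix.mul_one]

/-- `vc` as a linear equivalence -/
def vle : Mt d ≃ₗ[ℂ] EuclideanSpace ℂ (Fin d × Fin d) where
  toFun := vc
  map_add' := vc_add
  map_smul' := vc_smul
  invFun v := Matrix.of fun i j => v (i, j)
  left_inv _ := rfl
  right_inv _ := rfl

lemma norm_vc_eq {x y : Mt d} (h : hs x = hs y) : ‖vc x‖ = ‖vc y‖ :=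
  le_antisymm (norm_vc_le.mpr h.le) (norm_vc_le.mpr h.ge)

/-- conjugation as an isometry -/
def ci (V : Matrix.unitaryGroup (Fin d) ℂ) :
    EuclideanSpace ℂ (Fin d × Fin d) ≃ₗᵢ[ℂ] EuclideanSpace ℂ (Fin d × Fin d) where
  toLinearEquiv := vle.symm.trans ((cje V).trans vle)
  norm_map' v := by
    obtain ⟨x, rfl⟩ := vle.surjective v
    show ‖vle (cje V (vle.symm (vle x)))‖ = ‖vle x‖
    rw [LinearEquiv.symm_apply_apply]
    show ‖vc ((V : Mt d) * x * (V : Mt d)ᴴ)‖ = ‖vc x‖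
    apply norm_vc_eq
    rw [hs_mul_unit (unit_conj (uni V)), hs_unit_mul (uni V)]

lemma ci_vc (V : Matrix.unitaryGroup (Fin d) ℂ) (x : Mt d) :
    ci V (vc x) = vc ((V : Mt d) * x * (V : Mt d)ᴴ) := rfl

lemma ci_one : ci (1 : Matrix.unitaryGroup (Fin d) ℂ) = 1 := by
  apply LinearIsometryEquiv.ext
  intro v
  obtain ⟨x, rfl⟩ := vle.surjective v
  show ci 1 (vc x) = vc x
  rw [ci_vc]
  simp

lemma ci_mul (V W : Matrix.unitaryGroup (Fin d) ℂ) : ci (V * W) = ci V * ci W := by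
  apply LinearIsometryEquiv.ext
  intro v
  obtain ⟨x, rfl⟩ := vle.surjective v
  show ci (V * W) (vc x) = ci V (ci W (vc x))
  rw [ci_vc, ci_vc, ci_vc]
  congr 1
  simp only [Submonoid.coe_mul, Matrix.conjTranspose_mul, Matrix.mul_assoc]

/-- the unitary representation by conjugation -/
def rp : Matrix.unitaryGroup (Fin d) ℂ →*
    unitary (EuclideanSpace ℂ (Fin d × Fin d) →L[ℂ] EuclideanSpace ℂ (Fin d × Fin d)) where
  toFun V := Unitary.linearIsometryEquiv.symm (ci V)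
  map_one' := by rw [ci_one, map_one]
  map_mul' V W := by rw [ci_mul, map_mul]

lemma rp_vc (V : Matrix.unitaryGroup (Fin d) ℂ) (x : Mt d) :
    ((rp V : unitary _) : EuclideanSpace ℂ (Fin d × Fin d) →L[ℂ] EuclideanSpace ℂ (Fin d × Fin d))
      (vc x) = vc ((V : Mt d) * x * (V : Mt d)ᴴ) := rfl

/-- the representation of the free group -/
def rf (U : Fin k → Matrix.unitaryGroup (Fin d) ℂ) : FreeGroup (Fin k) →*
    unitary (EuclideanSpace ℂ (Fin d × Fin d) →L[ℂ] EuclideanSpace ℂ (Fin d × Fin d)) :=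
  rp.comp (FreeGroup.lift U)

lemma rf_vc (U : Fin k → Matrix.unitaryGroup (Fin d) ℂ) (w : FreeGroup (Fin k)) (x : Mt d) :
    ((rf U w : unitary _) :
      EuclideanSpace ℂ (Fin d × Fin d) →L[ℂ] EuclideanSpace ℂ (Fin d × Fin d)) (vc x)
      = vc ((FreeGroup.lift U w : Mt d) * x * (FreeGroup.lift U w : Mt d)ᴴ) := rfl

lemma Mk_vc (U : Fin k → Matrix.unitaryGroup (Fin d) ℂ) (x : Mt d) :
    Mk (rf U) (vc x) = vc (P0 (fun s => (U s : Mt d)) x) := by
  unfold Mk
  have h1 : ∀ s, ((rf U (FreeGroup.of s) : unitary _) :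
      EuclideanSpace ℂ (Fin d × Fin d) →L[ℂ] EuclideanSpace ℂ (Fin d × Fin d)) (vc x)
      = vc ((U s : Mt d) * x * (U s : Mt d)ᴴ) := by
    intro s
    rw [rf_vc, FreeGroup.lift_apply_of]
  have h2 : ∀ s, ((rf U (FreeGroup.of s)⁻¹ : unitary _) :
      EuclideanSpace ℂ (Fin d × Fin d) →L[ℂ] EuclideanSpace ℂ (Fin d × Fin d)) (vc x)
      = vc ((U s : Mt d)ᴴ * x * (U s : Mt d)) := by
    intro s
    rw [rf_vc, map_inv, FreeGroup.lift_apply_of, Matrix.UnitaryGroup.inv_val,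
      Matrix.star_eq_conjTranspose, Matrix.conjTranspose_conjTranspose]
  rw [P0_apply, vc_add, vc_smul, vc_smul, vc_add, vc_sum]
  simp only [_root_.add_apply, _root_.smul_apply,
    _root_.sum_apply, one_apply_eq_self, h1, h2, vc_add]
  unfold ck
  push_cast
  rfl

lemma Mk_pow_vc (U : Fin k → Matrix.unitaryGroup (Fin d) ℂ) (K : ℕ) (x : Mt d) :
    (Mk (rf U) ^ K) (vc x) = vc ((P0 (fun s => (U s : Mt d)) ^ K) x) := by
  induction K with
  | zero => rfl
  | succ K ih =>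
    rw [pow_succ', pow_succ', Module.End.mul_apply, mul_apply_eq_comp, ih, Mk_vc]

lemma rf_sub (U : Fin k → Matrix.unitaryGroup (Fin d) ℂ) (w : FreeGroup (Fin k)) (x : Mt d) :
    ‖((rf U w : unitary _) :
      EuclideanSpace ℂ (Fin d × Fin d) →L[ℂ] EuclideanSpace ℂ (Fin d × Fin d)) (vc x) - vc x‖ ^ 2
      = hs ((FreeGroup.lift U w : Mt d) * x - x * (FreeGroup.lift U w : Mt d)) := by
  rw [rf_vc, ← vc_sub, ← hs_eq_norm, hs_comm_eq' (uni _), hs_sub_comm]

/-- the defect -/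
lemma defect (V : Matrix.unitaryGroup (Fin d) ℂ) (x : Mt d) :
    hs ((V : Mt d) * x - x * (V : Mt d)) ≤
      2 * tr ((((V : Mt d) - 1)ᴴ * ((V : Mt d) - 1)) * (x * xᴴ + xᴴ * x)) := by
  set v : Mt d := (V : Mt d) with hv
  have hu : vᴴ * v = 1 := uni V
  have hu' : v * vᴴ = 1 := unit_symm hu
  have h1 : v * x - x * v = (v - 1) * x - x * (v - 1) := by noncomm_ring
  have h2 : (v - 1) * (v - 1)ᴴ = (v - 1)ᴴ * (v - 1) := by
    rw [Matrix.conjTranspose_sub, Matrix.conjTranspose_one]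
    have e1 : (v - 1) * (vᴴ - 1) = v * vᴴ - v - vᴴ + 1 := by noncomm_ring
    have e2 : (vᴴ - 1) * (v - 1) = vᴴ * v - v - vᴴ + 1 := by noncomm_ring
    rw [e1, e2, hu, hu']
  have h3 : hs ((v - 1) * x) = tr (((v - 1)ᴴ * (v - 1)) * (x * xᴴ)) := by
    rw [hs_eq_tr, Matrix.conjTranspose_mul, tr_mul_comm]
    rw [Matrix.mul_assoc (v - 1) x, ← Matrix.mul_assoc x, tr_mul_comm, Matrix.mul_assoc,
      tr_mul_comm, Matrix.mul_assoc]
  have h4 : hs (x * (v - 1)) = tr (((v - 1)ᴴ * (v - 1)) * (xᴴ * x)) := by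
    rw [hs_eq_tr', Matrix.conjTranspose_mul, ← h2]
    simp only [Matrix.mul_assoc]
    rw [tr_mul_comm x]
    simp only [Matrix.mul_assoc]
  calc hs (v * x - x * v) = hs ((v - 1) * x - x * (v - 1)) := by rw [h1]
    _ ≤ 2 * hs ((v - 1) * x) + 2 * hs (x * (v - 1)) := hs_sub_le _ _
    _ = 2 * tr ((((v : Mt d) - 1)ᴴ * ((v : Mt d) - 1)) * (x * xᴴ + xᴴ * x)) := by
        rw [h3, h4, Matrix.mul_add, tr_add]; ring

end rep

theorem main (hB : PtbP) (hC : PtcP) : PtdP := by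
  intro G _ k γ hT hγ
  obtain ⟨C, hC1, hK⟩ := hB G k γ hT hγ
  refine ⟨C, hC1, fun η hη => ?_⟩
  obtain ⟨K, hK⟩ := hK (η / 2) (by positivity)
  obtain ⟨δ0, hδ0, R, hR, hmain⟩ := hC k γ.ker K C (η / 2) (by positivity)
    (fun H _ _ _ ρ hρ ξ => hK H ρ (fun w hw => hρ w hw) ξ)
  refine ⟨δ0 ^ 2 / 2, by positivity, R, fun w hw => hR w hw, fun d U => ?_⟩
  have hu : ∀ s, ((fun s => (U s : Mt d)) s)ᴴ * (fun s => (U s : Mt d)) s = 1 := fun s => uni (U s)
  have hpsd : ∀ w : FreeGroup (Fin k), (((FreeGroup.lift U w : Mt d) - 1)ᴴ *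
      ((FreeGroup.lift U w : Mt d) - 1)).PosSemidef := fun w =>
    Matrix.posSemidef_conjTranspose_mul_self _
  refine ⟨
    { u := fun s => (U s : Mt d)
      D := Dfc U R
      Φ := P0 (fun s => (U s : Mt d)) ^ K
      hu := hu
      hD := Matrix.posSemidef_sum _ fun w _ => hpsd w
      one := pow_one' hu K
      pos := fun x hx => pow_psd K hx
      star := fun x => pow_star K x
      trc := fun x y => pow_trc K x y
      ctr := fun x hx => pow_ctr hu K hx
      hsle := fun x => pow_hs hu K x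
      smooth := ?_ }, fun s => rfl, rfl⟩
  intro x hx
  have hxx : (x * xᴴ + xᴴ * x).PosSemidef := by
    refine Matrix.PosSemidef.add ?_ (Matrix.posSemidef_conjTranspose_mul_self x)
    have := Matrix.posSemidef_conjTranspose_mul_self xᴴ
    rwa [Matrix.conjTranspose_conjTranspose] at this
  have hbound : ∀ w ∈ R, ‖((rf U w : unitary _) :
      EuclideanSpace ℂ (Fin d × Fin d) →L[ℂ] EuclideanSpace ℂ (Fin d × Fin d)) (vc x) - vc x‖
      ≤ δ0 * ‖vc x‖ := by
    intro w hw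
    apply le_of_sq_le_sq _ (by positivity)
    rw [rf_sub, mul_pow, ← hs_eq_norm]
    have h1 := defect (FreeGroup.lift U w) x
    have h2 : tr ((((FreeGroup.lift U w : Mt d) - 1)ᴴ * ((FreeGroup.lift U w : Mt d) - 1)) *
        (x * xᴴ + xᴴ * x)) ≤ tr (Dfc U R * (x * xᴴ + xᴴ * x)) := by
      unfold Dfc
      rw [Finset.sum_mul, tr_sum]
      exact Finset.single_le_sum (f := fun w => tr ((((FreeGroup.lift U w : Mt d) - 1)ᴴ *
        ((FreeGroup.lift U w : Mt d) - 1)) * (x * xᴴ + xᴴ * x)))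
        (fun w _ => tr_mul_nonneg (hpsd w) hxx) hw
    linarith
  obtain ⟨h3, h4⟩ := hmain (EuclideanSpace ℂ (Fin d × Fin d)) (rf U) (vc x) hbound
  have e2 : 2 * (η / 2) = η := by ring
  rw [e2, Mk_pow_vc, ← hs_eq_norm] at h3 h4
  have hen : ∀ y : Mt d, ∑ s, ‖((rf U (FreeGroup.of s) : unitary _) :
      EuclideanSpace ℂ (Fin d × Fin d) →L[ℂ] EuclideanSpace ℂ (Fin d × Fin d)) (vc y) - vc y‖ ^ 2
      = en (fun s => (U s : Mt d)) y := by
    intro y
    unfold en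
    refine Finset.sum_congr rfl fun s _ => ?_
    rw [rf_sub, FreeGroup.lift_apply_of]
  rw [hen] at h3
  rw [hen, ← vc_sub, ← hs_eq_norm] at h4
  exact ⟨h3, h4⟩

end

end Pool.Agent.W637.RC.PTD
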